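import Pool.Agent.U738.CX.Fam
import Pool.Agent.R904.TR.Res
import Pool.Agent.U586.MU.Loc
import Pool.Agent.U586.MU.Reg
import Pool.Agent.Q282.UZ.Fam

/-!
# Bass's finite generation conjecture and actions of diagonalizable groups

`KThy` (starting library) lists the known properties of Quillen's groups `K'_n(X)` of the schemes of
finite type over `ℤ` which are used: invariance under isomorphisms, localization, homotopy invariance,
the fundamental theorem, and finite generation in dimension at most one (Quillen, Harder). `K.Fin X`
means that all groups `K'_n(X)` are finitely generated.

Let `A` be a ring of finite type over `ℤ` with a grading `𝒜` by a commutative group `Γ`, that is with an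
action of the diagonalizable group scheme `D(Γ)` (a split torus if `Γ = ℤ^d`) on `X = Spec A`. The
complexity of the action is at most `N` if the quotients `D(f) // D(Γ) = Spec (A[1 / f])_0` of the
invariant open subschemes `D(f)`, for the homogeneous elements `f` of `A`, have dimension at most `N`. (If
`X` is integral of finite type over a field `k`, then the complexity is the transcendence degree over `k`
of the field of the invariant rational functions, see `complexity_of_trdeg` in `U738/CX/Fam.lean`. For
the trivial action it is the dimension of `X`.) Examples of complexity at most one are the affine toric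
schemes over rings of dimension at most one and, over a finite field, the integral surfaces with a
nontrivial action of the multiplicative group, the integral threefolds with a faithful action of a
two-dimensional torus, the affine cones over projective curves, and in general the integral affine
varieties with a torus action whose general orbits have codimension at most one. `X` may also be
reducible and non-reduced, and it may have arbitrary singularities.

We show that Bass's conjecture for the regular schemes of dimension at most `N` is equivalent to the
finite generation of all groups `K'_n(Spec A)` for the rings `A`, of any dimension, with an action of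
complexity at most `N`; and the latter is true for `N = 1`.
-/

set_option autoImplicit false

open CategoryTheory AlgebraicGeometry Pool.Agent.Y116.UV Pool.Agent.Q282.UZ Pool.Agent.R904.CU
  Pool.Agent.R904.TR Pool.Agent.U586.MU Pool.Agent.U738.BN Pool.Agent.U738.CX

namespace Pool.Agent.Results.MP_e17fa799_al.ComplexityOne

/-- Bass's conjecture for the regular schemes of finite type over `ℤ` of dimension at most `N`. -/
def BassDim (K : KThy) (N : WithBot ℕ∞) : Prop :=
  ∀ (X : Scheme.{0}) (f : X ⟶ Spec (.of ℤ)), FinType ℤ X f → IsRegularScheme X →
    topologicalKrullDim X ≤ N → K.Fin X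

variable (K : KThy)

lemma fin_int : K.Fin (Spec (.of ℤ)) :=
  fin_dim_one K ℤ (IsPrincipalIdealRing.ringKrullDim_eq_one ℤ Int.not_isField).le

lemma fin_one (A : Type) [CommRing A] [i : Algebra ℤ A] [h : Algebra.FiniteType ℤ A]
    (hA : ringKrullDim A ≤ 1) : K.Fin (Spec (.of A)) := by
  obtain rfl : i = Ring.toIntAlgebra A := Subsingleton.elim _ _
  exact fin_dim_one K A hA

lemma times_fin (A : Type) [CommRing A] [Algebra ℤ A] [Algebra.FiniteType ℤ A]
    (h : K.Fin (aff ℤ A).left) : K.Fin (aff ℤ (LaurentPolynomial A)).left := by
  refine (pos_of_bnd (bnd K False (fin_int K)) fun B _ _ _ => ?_).times A h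
  have hft : Algebra.FiniteType ℤ B := inferInstance
  exact fin_one K B ((dim_finite_le (R := ℤ) B).trans
    (IsPrincipalIdealRing.ringKrullDim_eq_one ℤ Int.not_isField).le)

/-- dimension and complexity -/
lemma dim_iff_complexity (N : WithBot ℕ∞) : ForDimension N (fun X : Sch ℤ => K.Fin X.left) ↔
    ForComplexity N (fun X : Sch ℤ => K.Fin X.left) :=
  complexity_iff (sep := False) (bnd K False (fin_int K)).iso (bnd K False (fin_int K)).total
    (times_fin K)

/-- regular schemes and affine schemes -/
lemma bass_iff_dim (N : WithBot ℕ∞) : BassDim K N ↔
    ForDimension N (fun X : Sch ℤ => K.Fin X.left) := by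
  have hE : Ext False (fun X : Sch ℤ => K.Fin X.left) :=
    ⟨(bnd K False (fin_int K)).iso, (bnd K False (fin_int K)).total⟩
  have h3 := (three_gen presents_int hE (hered_dim False N) generic_smooth).1
  constructor
  · intro h A _ _ _ hA
    refine h3.mpr (fun E _ π hd hg => ?_) (aff ℤ A) (ft_aff False) ?_
    · have hr : IsRegularScheme (π.space ℤ).left := by
        rcases hg with hg | hg
        · exact fun x => hg.elim x
        · exact regular_of_smoothOverPrime (π.Ring ℤ) hg.2
      exact h _ (π.space ℤ).hom ⟨(ft_aff (R := ℤ) (A := π.Ring ℤ) False).1,
        (ft_aff (R := ℤ) (A := π.Ring ℤ) False).2⟩ hr hd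
    · change topologicalKrullDim (PrimeSpectrum A) ≤ N
      rw [PrimeSpectrum.topologicalKrullDim_eq_ringKrullDim]
      exact hA
  · intro h X f hf _ hd
    refine h3.mpr (fun E _ π hd hg => h (π.Ring ℤ) ?_) (Over.mk f)
      ⟨hf.1, hf.2, fun h => h.elim⟩ hd
    rw [← PrimeSpectrum.topologicalKrullDim_eq_ringKrullDim]
    exact hd

/-- **Theorem.** For every `N` the following are equivalent:
(1) Bass's conjecture for the regular schemes of finite type over `ℤ` of dimension at most `N`;
(2) all groups `K'_n(Spec A)` are finitely generated for all rings `A` of finite type over `ℤ` with a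
grading by a commutative group of complexity at most `N`.
And (2) is true for `N = 1`. -/
theorem result :
    (∀ N : WithBot ℕ∞, BassDim K N ↔ ForComplexity N fun X : Sch ℤ => K.Fin X.left) ∧
      ForComplexity 1 fun X : Sch ℤ => K.Fin X.left :=
  ⟨fun N => (bass_iff_dim K N).trans (dim_iff_complexity K N),
    (dim_iff_complexity K 1).mp fun A _ _ _ hA => fin_one K A hA⟩

end Pool.Agent.Results.MP_e17fa799_al.ComplexityOne
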