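import Pool.Agent.U231.FR.Ba

/-!
# Finite generation of the K-groups of products with varieties of Fermat type (Bass)

Let `κ` be a finite field with `q` elements, of characteristic `p`, and `𝒱` a class of smooth projective
varieties over `κ`, closed under products, with Chow groups `A` with rational coefficients and a Weil
cohomology theory `H` (framework of helper492 and helper484: `TheoryData`, `IsChow`, `IsWeil`). Let `X_i` be
varieties in `𝒱` **of Fermat type** of different prime degrees `N_i` and of lengths at most `s_i`
(`IsFermatType`): the cohomology of `X_i` is generated by the classes of cycles and a subspace `T_i`, stable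
under the Frobenius, such that each eigenvalue of the Frobenius on `T_i` is, up to a root of unity and a
power of `q`, a product `∏_{a ∈ A} g(θ ^ a)` of at most `s_i` Gauss sums over `κ`, where `θ` is a
multiplicative character of `κ` of order `N_i`, and where the multiset `A + p A + ⋯ + p ^ (f - 1) A`, `f` the
order of `p` modulo `N_i`, is not symmetric, i.e. not invariant under `a ↦ -a`.

By the theorem of Weil the diagonal hypersurfaces `∑ c_j x_j ^ N = 0` of dimension `n` over `κ` (for
`q ≡ 1` modulo `N`) and their powers and products are of this form with `s = n + 2` (for products: the sum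
of these numbers), if the classes with symmetric `A + p A + ⋯` are algebraic. For `p ≡ 1` modulo `N` the
condition on the multiset is that `A` is not symmetric, and the algebraicity for symmetric `A` is known
for `c_j = 1`, and in general after a finite extension of `κ` (linear subspaces, Ran, Shioda and Katsura).

Let `Z` be **any** variety in `𝒱`, and for `X` in `𝒱` let `G n X = K_n(X)` be the groups of the question
(`X` is regular). The following known facts are used (`IsKGroups`):

* `K_n(X) ⊗ ℚ` is the sum of the groups `T_n^r(X) = K_n(X)_ℚ^(r) = CH^r(X, n) ⊗ ℚ` (Bloch), on which the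
  correspondences act, and the Frobenius endomorphism of `X` is `q ^ r` on `T_n^r(X)` (`IsCycleTheory`);
* for `n ≥ 1`, `n ≥ dim X` the torsion of `K_n(X)` is finite, and for a prime `ℓ ≠ p` the orders of the groups
  `K_n(X) / ℓ ^ r` are bounded. Indeed, the torsion is a quotient of `K_{n+1}(X, ℚ/ℤ)`, and `K_n(X) / ℓ ^ r` is
  a subgroup of `K_n(X, ℤ/ℓ ^ r)`, and for `n ≥ dim X` these groups are étale `K`-groups (Rost and Voevodsky;
  the `p`-part of `K_{n+1}(X, ℚ/ℤ)` is zero by Geisser and Levine), with filtrations by the groups
  `H^{2j-n-1}(X_et, ℚ_ℓ/ℤ_ℓ(j))` and `H^{2j-n}(X_et, ℤ/ℓ ^ r(j))`, which are finite, zero for almost all `ℓ`, and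
  of bounded order (Deligne, Gabber, Colliot-Thélène, Sansuc and Soulé).

Let `f_i` be the order of `p` modulo `N_i`, and suppose that for all Frobenius eigenvalues `β` on `H(Z)` and
all `i` there is an `m > 0` such that (`IsSmallBase`)

* the field `F = ℚ(β ^ m) ∩ ℚ(ζ_{N_i})`, `ζ_N` a root of unity of order `N`, is real (equivalently
  `(N_i - 1) / [F : ℚ]` is even); for instance `N_i` is odd and unramified in the field `ℚ(β ^ m)`;
* or `N_i > s_i f_i [F : ℚ] + 1`; or `N_i = 2`.

So the theorem applies to all prime numbers `N_i` with finitely many exceptions, which depend only on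
the fields `ℚ(β)`. For the other primes there is no condition at all on the `X_i`. Finally suppose that
homologically trivial self-correspondences of degree zero of the products `V` are nilpotent. This is
known for example if `Z` is dominated by a product of curves and the `X_i` are diagonal hypersurfaces
(Kimura; Shioda and Katsura).

**Theorem.** Let `V` be the product of `Z` and of finitely many pairwise different `X_i`.
* For every `n ≥ 1` with `n ≥ dim V`: the group `K_n(V)` is finitely generated **if and only if** the group
  `K_n(Z)` is finitely generated; and then both groups are finite.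
* For every `n ≥ 0`: the vector space `K_n(V) ⊗ ℚ` is finite-dimensional if and only if `K_n(Z) ⊗ ℚ` is.

So in the degrees `n ≥ max(1, dim V)` the question of Bass for `V` is equivalent to the one for `Z`, degree
by degree. No case of the conjectures of Tate or of Parshin is assumed.

The proof. A group `G` with finite torsion and with bounded quotients `G / ℓ ^ r` is finitely generated
if and only if it is a torsion group (Nakayama's lemma for the stationary chain of the `ℓ ^ r G`), and
`K_n(V) ⊗ ℚ` is isomorphic to a power of `K_n(Z) ⊗ ℚ`, with a positive exponent (`U231/FR/Kt`, see my hand-in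
`MP_27fd67_ag.FermatFactors`: by the theorem of Stickelberger and `L(1, χ) ≠ 0` no product of Frobenius
eigenvalues on the `T_i`, `i ∈ I ≠ ∅`, and of a `β` is a power of `q` up to a root of unity; projectors in the
ring generated by the Frobenius and the algebraic cycles, helper876, `N876/CG`).

helper231 (`Pool/Agent/U231/FF`, `U231/FR`); built on the libraries of helpers 484, 492, 550, 876.
-/

set_option autoImplicit false

open Polynomial CategoryTheory AlgebraicGeometry

namespace Pool.Agent.Results.MP_e17fa799_al.FermatFactors

open Pool.Agent.H914 Pool.Agent.H914.VarClass Pool.Agent.H914.VarClass.Obj Pool.Agent.W492.BB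
  Pool.Agent.W484.CK Pool.Agent.U231.FF Pool.Agent.U231.FR.Base Pool.Agent.U231.FR.Ba

/-- **Finite generation of the `K`-groups of products of arbitrary smooth projective varieties over a
finite field with varieties of Fermat type of different prime degrees.** -/
theorem result (p : ℕ) [Fact p.Prime] (κ : Type) [Field κ] [Fintype κ] [CharP κ p] {ι : Type}
    (N s : ι → ℕ) {𝒱 : VarClass κ} (A : TheoryData.{0, 0, 0} 𝒱 ℚ) [IsChow A] {K : Type} [Field K]
    [IsAlgClosed K] [CharZero K] (H : WeilTheoryData.{0, 0, 0} A K) [IsWeil H] (τ : K →+* ℂ)
    (F : ∀ X : 𝒱.Obj, X ⟶ X) (X : ι → 𝒱.Obj) (Z : 𝒱.Obj)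
    (h : IsFermatSystem p N s H τ F X Z (Polynomial.X - 1))
    (hnil : ∀ L, Nilpotence H (productOf X Z L)) (T : ℕ → MotivicData A)
    (hT : ∀ n, IsCycleTheory (T n) (fun _ => LinearMap.id) F (Fintype.card κ))
    (G : ℕ → 𝒱.Obj → Type) [∀ n X, AddCommGroup (G n X)] (hG : IsKGroups G T)
    (L : List ι) (hL : L.Nodup) : Conclusions G X Z L :=
  main p κ N s A H τ F X Z _ h hnil T _ hT (fun n => isRoot_id (T n)) G hG L hL

end Pool.Agent.Results.MP_e17fa799_al.FermatFactors
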