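import Pool.Agent.U586.MU.Loc
import Pool.Agent.U586.MU.Reg
import Pool.Agent.Q282.UZ.Fam

/-!
# MP_e17fa799_al: Bass's conjecture and realization spaces of line arrangements

For a fixed `n ≥ 0` let `G X = K'_n(X)` for the schemes `X` of finite type over `ℤ`; these groups are
invariant under isomorphisms and have localization sequences (Quillen). The theorem says that, degree by
degree and dimension by dimension, Bass's conjecture for all regular schemes is equivalent to the finite
generation of the groups `K'_n(X) = K_n(A)` for very special smooth affine schemes `X = Spec A` over `ℤ` or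
over prime fields: for the integral smooth realization spaces of line arrangements (of matroids of rank
3), and also for the integral smooth schemes of families of solutions of the unit equation `x + y = 1`
with given multiplicative relations. Only the localization sequences at the place `K'_n` are used: no
homotopy invariance, no fundamental theorem, no other degrees.
-/

set_option autoImplicit false

open CategoryTheory AlgebraicGeometry MvPolynomial Pool.Agent.Y116.UV Pool.Agent.Q282.UZ
  Pool.Agent.U586.MU

universe w

namespace Pool.Agent.Results.MP_e17fa799_al.RealizationSpaces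

/-- `X` is the realization space over `ℤ` of a configuration type: the scheme of the configurations of
points `e ∈ E` of the projective plane, in the coordinates given by a projective frame, for which exactly
the triples in a given set are collinear. -/
def IsRealizationSpace (X : Sch ℤ) : Prop :=
  ∃ (E : Type) (_ : Fintype E) (π : Cfg E), X = π.space ℤ

/-- `X` is the scheme over `ℤ` of the families of units `x_i, y_i`, `i ∈ I`, with `x_i + y_i = 1` which
satisfy given signed binomial equations `∏ u_v ^ p_v = ± ∏ u_v ^ q_v`. -/
def IsUnitScheme (X : Sch ℤ) : Prop :=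
  ∃ (I : Type) (_ : Fintype I) (S : Set (SBin (I ⊕ I))), X = uspace ℤ S

/-- The schemes in `K` which are empty, or integral and smooth over `ℤ` or over a prime field. -/
def SmoothIn (K : Sch ℤ → Prop) (X : Sch ℤ) : Prop :=
  K X ∧ (IsEmpty X.left ∨ IsIntegral X.left ∧ SmoothOverPrime X.left)

/-- **Theorem.** The class of the schemes of dimension at most `d` is hereditary. Let `G` be groups with
the property `HasLoc`, for example `G X = K'_n(X)` for a fixed `n ≥ 0`, and let `K` be a hereditary class
of schemes over `ℤ`. The following are equivalent: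
(1) `G X` is finitely generated for all regular schemes `X` of finite type over `ℤ` in `K` (Bass's
conjecture);
(2) `G X` is finitely generated for all schemes `X` of finite type over `ℤ` in `K`;
(3) `G X` is finitely generated for all realization spaces `X` in `K` which are empty or integral and
smooth over `ℤ` or over a prime field;
(4) `G X` is finitely generated for all schemes `X` in `K` of solutions of unit equations which are empty
or integral and smooth over `ℤ` or over a prime field.
All the schemes in (3) and (4) are affine and regular. -/
theorem result :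
    (∀ d : WithBot ℕ∞, Hered False fun X : Sch ℤ => topologicalKrullDim X.left ≤ d) ∧
    (∀ X : Sch ℤ, IsRealizationSpace X ∨ IsUnitScheme X → IsAffine X.left ∧
      (SmoothOverPrime X.left → IsRegularSch X.left)) ∧
    ∀ (G : Sch ℤ → Type w) [∀ X, AddCommGroup (G X)], HasLoc False G →
      ∀ K : Sch ℤ → Prop, Hered False K → List.TFAE [
        ∀ X : Sch ℤ, LocallyOfFiniteType X.hom → QuasiCompact X.hom → IsRegularSch X.left → K X →
          AddGroup.FG (G X),
        ∀ X : Sch ℤ, LocallyOfFiniteType X.hom → QuasiCompact X.hom → K X → AddGroup.FG (G X),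
        ∀ X : Sch ℤ, IsRealizationSpace X → SmoothIn K X → AddGroup.FG (G X),
        ∀ X : Sch ℤ, IsUnitScheme X → SmoothIn K X → AddGroup.FG (G X)] := by
  have hreg : ∀ X : Sch ℤ, IsRealizationSpace X ∨ IsUnitScheme X → IsAffine X.left ∧
      (SmoothOverPrime X.left → IsRegularSch X.left) := by
    rintro X (⟨E, _, π, rfl⟩ | ⟨I, _, S, rfl⟩)
    · exact ⟨inferInstanceAs (IsAffine (Spec (.of (π.Ring ℤ)))), fun h =>
        regular_of_smoothOverPrime (π.Ring ℤ) h⟩
    · exact ⟨inferInstanceAs (IsAffine (Spec (.of (URing ℤ S)))), fun h =>
        regular_of_smoothOverPrime (URing ℤ S) h⟩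
  have hempty : ∀ X : Sch ℤ, IsEmpty X.left → IsRegularSch X.left := fun X h x => h.elim x
  refine ⟨fun d => hered_dim False d, hreg, fun G _ hG K hK => ?_⟩
  obtain ⟨h1, h2⟩ := three_gen presents_int hG.ext hK generic_smooth
  tfae_have 1 → 3 := by
    rintro h X hX ⟨hKX, hs⟩
    have hr : IsRegularSch X.left := by
      rcases hs with hs | hs
      · exact hempty X hs
      · exact (hreg X (Or.inl hX)).2 hs.2
    obtain ⟨E, _, π, rfl⟩ := hX
    exact h _ (ft_aff False).1 (ft_aff False).2 hr hKX
  tfae_have 1 → 4 := by
    rintro h X hX ⟨hKX, hs⟩
    have hr : IsRegularSch X.left := by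
      rcases hs with hs | hs
      · exact hempty X hs
      · exact (hreg X (Or.inr hX)).2 hs.2
    obtain ⟨I, _, S, rfl⟩ := hX
    exact h _ (ft_aff False).1 (ft_aff False).2 hr hKX
  tfae_have 2 → 1 := fun h X hX1 hX2 _ hKX => h X hX1 hX2 hKX
  tfae_have 3 → 2 := by
    intro h X hX1 hX2 hKX
    exact h1.mpr (fun E _ π hKπ hg => h _ ⟨E, _, π, rfl⟩ ⟨hKπ, hg⟩) X ⟨hX1, hX2, fun h => h.elim⟩ hKX
  tfae_have 4 → 2 := by
    intro h X hX1 hX2 hKX
    exact h2.mpr (fun I _ S hKπ hg => h _ ⟨I, _, S, rfl⟩ ⟨hKπ, hg⟩) X ⟨hX1, hX2, fun h => h.elim⟩ hKX
  tfae_finish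

end Pool.Agent.Results.MP_e17fa799_al.RealizationSpaces
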