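import Pool.Agent.U738.BN.DimR
import Pool.Agent.R904.TR.Res
import Pool.Agent.Q282.UZ.Sys

/-!
# Bass's finite generation conjecture: equations with two terms and equations with three terms

`KThy` (starting library) lists the known properties of Quillen's groups `K'_n(X)` of the schemes of
finite type over `ℤ` which are used: invariance under isomorphisms, localization, homotopy invariance,
the fundamental theorem, and finite generation in dimension at most one (Quillen, Harder). `K.Fin X`
means that all groups `K'_n(X)` are finitely generated.

The base is a regular quotient `R` of `ℤ`, for example `ℤ` or a prime field. For a number `t` we compare: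
all groups `K'_n(X)` are finitely generated for the schemes `X` given by equations with at most `t` terms
whose coefficients are arbitrary elements of an `R`-algebra `S` of finite type and of dimension at most
one, for example `ℤ`, the ring of integers of a number field, or the functions on a curve over a finite
field; the same for systems of bilinear equations over `R` with at most `t` terms and coefficients `1`;
and Bass's conjecture for the regular schemes over `R`. The first two statements are true for `t ≤ 2`,
and equivalent to the conjecture for `t ≥ 3`.
-/

set_option autoImplicit false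

open CategoryTheory AlgebraicGeometry MvPolynomial Pool.Agent.Y116.UV Pool.Agent.Z125.UN
  Pool.Agent.Q282.UK Pool.Agent.Q282.UZ Pool.Agent.R904.CU Pool.Agent.R904.TR Pool.Agent.U738.BN

namespace Pool.Agent.Results.MP_e17fa799_al.TwoAndThreeTerms

/-- Let `S` be an `R`-algebra of finite type and of dimension at most one. The groups `K'_n(X)` are
finitely generated for all closed subschemes `X` of affine spaces over `S` which are given by polynomials
with at most `t` terms, with arbitrary coefficients in `S`. -/
def TermsOverCurves (K : KThy) (R : Type) [CommRing R] (t : ℕ) : Prop :=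
  ∀ (S : Type) [CommRing S] [Algebra R S] [Algebra.FiniteType R S], ringKrullDim S ≤ 1 →
    ∀ (n : ℕ) (G : Set (MvPolynomial (Fin n) S)), (∀ g ∈ G, g.support.card ≤ t) →
      K.Fin (Spec (.of (MvPolynomial (Fin n) S ⧸ Ideal.span G)))

/-- The groups `K'_n(X)` are finitely generated for all schemes `X` over `R` given by a finite system of
bilinear equations `∑_{(i, j) ∈ E_l} x_i y_j = 0` with at most `t` terms in every equation. -/
def BilinearSystems (K : KThy) (R : Type) [CommRing R] (t : ℕ) : Prop :=
  ∀ (a b c : ℕ) (E : Fin c → Finset (Fin a × Fin b)), (∀ l, (E l).card ≤ t) →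
    K.Fin (Spec (.of (MvPolynomial (Fin a ⊕ Fin b) R ⧸ Ideal.span (Set.range fun l =>
      (∑ e ∈ E l, X (Sum.inl e.1) * X (Sum.inr e.2) : MvPolynomial (Fin a ⊕ Fin b) R)))))

/-- Bass's conjecture for the regular schemes of finite type over `R`. -/
def BassOver (K : KThy) (R : Type) [CommRing R] : Prop :=
  ∀ (X : Scheme.{0}) (f : X ⟶ Spec (.of R)), FinType R X f → IsRegularScheme X → K.Fin X

section

variable (K : KThy) {R : Type} [CommRing R]

lemma clo_fin [Algebra.FiniteType ℤ R] (h0 : K.Fin (Spec (.of R))) :
    Clo False fun X : Sch R => K.Fin X.left where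
  iso := (bnd K False h0).iso
  total := (bnd K False h0).total
  opened := (bnd K False h0).opened
  torus := (bnd K False h0).torus

lemma posR_fin [Algebra.FiniteType ℤ R] (hd : ringKrullDim R ≤ 1) :
    PosR False fun X : Sch R => K.Fin X.left := by
  refine posR_of_bnd (bnd K False (fin_dim_one K R hd)) ?_
  intro I f B _ _ A _ _ _ _ _ hB
  have h1 := hB.finiteType
  have h2 : Algebra.FiniteType R A := Algebra.FiniteType.trans (S := B) h1 inferInstance
  have h3 : Algebra.FiniteType ℤ A := Algebra.FiniteType.trans (S := R) inferInstance h2
  exact fin_dim_one K A ((dim_lc hB A).trans hd)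

variable (hR : Function.Surjective (Int.cast : ℤ → R))

include hR

lemma ft_quot : Algebra.FiniteType ℤ R :=
  Algebra.FiniteType.of_surjective (Algebra.ofId ℤ R) hR

lemma dim_quot : ringKrullDim R ≤ 1 :=
  (ringKrullDim_le_of_surjective (algebraMap ℤ R) hR).trans dim_int

/-- Bass's conjecture for regular schemes implies finite generation for all schemes. -/
lemma all_of_bass [IsRegularRing R] (h : BassOver K R) (X : Sch R) (hX : FT False X) :
    K.Fin X.left := by
  have hft := ft_quot hR
  refine universal (R := R) (S := {0, 1}) (bnd K False (fin_dim_one K R (dim_quot hR))).toUni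
      (Or.inl rfl) (Or.inr rfl) (fun a b c T _ => ?_) (presents_zero_one hR) X hX
  have hT : FT False (hypS T) := ft_aff False
  exact h _ (hypS T).hom ⟨hT.1, hT.2⟩ (regular_hyp T)

end

lemma short_card {R : Type} [CommRing R] {V : Type} {g : MvPolynomial V R} (h : Short g) :
    g.support.card ≤ 3 := by
  classical
  obtain ⟨F, hF, rfl⟩ := h
  refine le_trans (Finset.card_le_card ?_) hF
  rw [ms]
  refine (support_sum).trans ?_
  refine Finset.biUnion_subset.mpr fun m hm => ?_
  exact support_monomial_subset.trans (Finset.singleton_subset_iff.mpr hm)

lemma bin_few {R : Type} [CommRing R] {β γ : Type} (E : Finset (β × γ)) (hE : E.card ≤ 2) :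
    IsBin (∑ e ∈ E, X (Sum.inl e.1) * X (Sum.inr e.2) : MvPolynomial (β ⊕ γ) R) := by
  classical
  have ht : ∀ e : β × γ, IsTerm (X (Sum.inl e.1) * X (Sum.inr e.2) : MvPolynomial (β ⊕ γ) R) :=
    fun e => (isTerm_X _).mul (isTerm_X _)
  rcases Nat.lt_or_ge E.card 2 with h1 | h1
  · rcases Nat.lt_or_ge E.card 1 with h0 | h0
    · left
      rw [Finset.card_eq_zero.mp (show E.card = 0 by omega), Finset.sum_empty]
    · right; left
      obtain ⟨a, rfl⟩ := Finset.card_eq_one.mp (show E.card = 1 by omega)
      rw [Finset.sum_singleton]
      exact ht a
  · right; right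
    obtain ⟨a, b, hab, rfl⟩ := Finset.card_eq_two.mp (show E.card = 2 by omega)
    exact ⟨_, _, ht a, ht b, Finset.sum_pair hab⟩

/-- **Theorem.** Let `R` be a regular quotient of `ℤ` (for example `ℤ` or a prime field). For every
`t ≥ 0` the following statements are equivalent:
(1) all groups `K'_n(X)` are finitely generated for the schemes `X` given by any set of equations with at
most `t` terms whose coefficients are in an `R`-algebra of finite type of dimension at most one;
(2) all groups `K'_n(X)` are finitely generated for the schemes over `R` given by systems of bilinear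
equations with at most `t` terms in every equation and coefficients `1`;
(3) `t ≤ 2`, or Bass's conjecture is true for the regular schemes of finite type over `R`.
In particular (1) and (2) are true for `t = 2`, and they are equivalent to the conjecture for `t = 3`. -/
theorem result (K : KThy) (R : Type) [CommRing R] [IsRegularRing R]
    (hR : Function.Surjective (Int.cast : ℤ → R)) (t : ℕ) :
    List.TFAE [TermsOverCurves K R t, BilinearSystems K R t, t ≤ 2 ∨ BassOver K R] := by
  have hft := ft_quot hR
  have hd := dim_quot hR
  have h0 := fin_dim_one K R hd
  have hC := clo_fin K h0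
  have hall : (∀ X : Sch R, FT False X → K.Fin X.left) → BassOver K R := by
    intro h X f hf _
    exact h (Over.mk f) ⟨hf.1, hf.2, fun h => h.elim⟩
  tfae_have 1 → 3 := by
    intro h
    by_cases ht : t ≤ 2
    · exact Or.inl ht
    · refine Or.inr (hall fun X hX => ?_)
      refine of_affine' hC.iso hC.total (fun A _ _ _ => ?_) X hX
      obtain ⟨n, φ, G, hs, hK, hc⟩ := short_presents hR A
      have h1 := h R hd n (G : Set (MvPolynomial (Fin n) R)) fun f hf =>
        (short_card (hc f hf)).trans (by omega)
      rw [← hK] at h1
      exact clo_alg hC (Ideal.quotientKerAlgEquivOfSurjective hs) h1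
  tfae_have 3 → 1 := by
    rintro (ht | h)
    · intro S _ _ _ hS n G hG
      have h1 : Algebra.FiniteType ℤ S := Algebra.FiniteType.trans (S := R) inferInstance
        inferInstance
      have h2 : IsNoetherianRing S := Algebra.FiniteType.isNoetherianRing ℤ S
      exact two_P (posR_fin K hS) G fun g hg => (hG g hg).trans ht
    · intro S _ _ _ hS n G _
      have h2 : Algebra.FiniteType R (MvPolynomial (Fin n) S ⧸ Ideal.span G) :=
        Algebra.FiniteType.trans (S := S) inferInstance inferInstance
      exact all_of_bass K hR h _ (ft_aff False)
  tfae_have 2 → 3 := by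
    intro h
    by_cases ht : t ≤ 2
    · exact Or.inl ht
    · refine Or.inr (hall ((three_iff (short_presents hR) hC).mpr ?_))
      intro a b c E hE
      exact h a b c E fun l => (hE l).trans (by omega)
  tfae_have 3 → 2 := by
    rintro (ht | h)
    · intro a b c E hE
      have hP : Pos False fun X : Sch R => K.Fin X.left := by
        have h1 := posR_fin K hd
        exact ⟨h1.iso, h1.total, h1.times, fun A _ _ _ => h1.quasi ⊥ 1 R A (lc_base R)⟩
      exact bin_P hP (fun l => ∑ e ∈ E l, X (Sum.inl e.1) * X (Sum.inr e.2))
        fun l => bin_few (E l) ((hE l).trans ht)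
    · intro a b c E _
      exact all_of_bass K hR h _ (ft_aff False)
  tfae_finish

end Pool.Agent.Results.MP_e17fa799_al.TwoAndThreeTerms
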